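import Pool.Agent.H.MP_f45ea1_an.Space

namespace Pool.Agent.Results.MP_f45ea1_an.SemiNotAlmost

variable {𝕜 : Type} [RCLike 𝕜] {X : Type} [AddCommGroup X] [Module 𝕜 X]

/-- `q` is a complete quasi-norm on `X` -/
def IsQuasiBanach (𝕜 : Type) [RCLike 𝕜] [Module 𝕜 X] (q : X → ℝ) : Prop :=
  (∀ v, 0 ≤ q v) ∧ (∀ v, q v = 0 → v = 0) ∧ (∀ (c : 𝕜) v, q (c • v) = ‖c‖ * q v) ∧
  (∃ κ : ℝ, ∀ v w, q (v + w) ≤ κ * (q v + q w)) ∧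
  ∀ u : ℕ → X, (∀ ε : ℝ, 0 < ε → ∃ N : ℕ, ∀ m ≥ N, ∀ n ≥ N, q (u m - u n) < ε) →
    ∃ v : X, ∀ ε : ℝ, 0 < ε → ∃ N : ℕ, ∀ n ≥ N, q (u n - v) < ε

/-- semi-normalized Markushevich basis -/
def IsMBasis (q : X → ℝ) (x : ℕ → X) (f : ℕ → X →ₗ[𝕜] 𝕜) : Prop :=
  (∀ k n, f k (x n) = if k = n then 1 else 0) ∧
  (∀ v, ∀ ε : ℝ, 0 < ε → ∃ g ∈ Submodule.span 𝕜 (Set.range x), q (v - g) < ε) ∧
  (∀ v, (∀ n, f n v = 0) → v = 0) ∧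
  ∃ M : ℝ, ∀ n, q (x n) ≤ M ∧ ∀ v, ‖f n v‖ ≤ M * q v

def IsGreedySet (f : ℕ → X →ₗ[𝕜] 𝕜) (v : X) (A : Finset ℕ) : Prop :=
  ∀ n ∈ A, ∀ k ∉ A, ‖f k v‖ ≤ ‖f n v‖

def AlmostGreedy (q : X → ℝ) (x : ℕ → X) (f : ℕ → X →ₗ[𝕜] 𝕜) : Prop :=
  ∃ C : ℝ, ∀ v A, IsGreedySet f v A → q (v - ∑ n ∈ A, f n v • x n) ≤
    C * sInf {r | ∃ B : Finset ℕ, B.card ≤ A.card ∧ r = q (v - ∑ n ∈ B, f n v • x n)}

def SemiGreedy (q : X → ℝ) (x : ℕ → X) (f : ℕ → X →ₗ[𝕜] 𝕜) : Prop :=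
  ∃ C : ℝ, ∀ v A, IsGreedySet f v A →
    sInf {r | ∃ a : ℕ → 𝕜, r = q (v - ∑ n ∈ A, a n • x n)} ≤
      C * sInf {r | ∃ B : Finset ℕ, B.card ≤ A.card ∧
        ∃ a : ℕ → 𝕜, r = q (v - ∑ n ∈ B, a n • x n)}

open Pool.Agent.H.MP_f45ea1_an in
theorem result (𝕜 : Type) [RCLike 𝕜] :
    ∃ (X : Type) (_ : AddCommGroup X) (_ : Module 𝕜 X) (q : X → ℝ) (x : ℕ → X)
      (f : ℕ → X →ₗ[𝕜] 𝕜), IsQuasiBanach 𝕜 q ∧ (∀ v w, √(q (v + w)) ≤ √(q v) + √(q w)) ∧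
      IsMBasis q x f ∧ SemiGreedy q x f ∧ ¬ AlmostGreedy q x f := by
  have q0 : ∀ v : X 𝕜, 0 ≤ q v := fun v => sq_nonneg _
  refine ⟨X 𝕜, inferInstance, inferInstance, q, x, xs,
    ⟨q0, q_def, q_smul, ⟨2, q_add⟩, complete⟩, fun v w => ?_,
    ⟨xs_x, dense, total, 1, fun n => ⟨q_x n, fun v => ?_⟩⟩, ⟨25, fun v A hA => ?_⟩, ?_⟩
  · simp only [sqrt_q]; exact rho_add v w
  · rw [one_mul]; exact xs_le n v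
  · rw [← div_le_iff₀' (by norm_num)]
    refine le_csInf ⟨_, ∅, by simp, 0, rfl⟩ ?_
    rintro _ ⟨B, hB, b, rfl⟩
    rw [div_le_iff₀' (by norm_num)]
    refine semi' v A B hA hB b _ fun a => csInf_le ⟨0, ?_⟩ ⟨a, rfl⟩
    rintro _ ⟨a, rfl⟩
    exact q0 _
  · rintro ⟨C, h⟩
    obtain ⟨v, A, hA, h0, h1⟩ := notqg (𝕜 := 𝕜) (max C 0)
    have h2 := h v A hA
    have h3 : sInf {r | ∃ B : Finset ℕ, B.card ≤ A.card ∧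
        r = q (v - ∑ n ∈ B, xs n v • x n)} ≤ q v := by
      refine csInf_le ⟨0, ?_⟩ ⟨∅, by simp, by simp⟩
      rintro _ ⟨B, -, rfl⟩
      exact q0 _
    have h4 : 0 ≤ sInf {r | ∃ B : Finset ℕ, B.card ≤ A.card ∧
        r = q (v - ∑ n ∈ B, xs n v • x n)} := by
      refine Real.sInf_nonneg ?_
      rintro _ ⟨B, -, rfl⟩
      exact q0 _
    have h5 := (mul_le_mul_of_nonneg_right (le_max_left C 0) h4).trans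
      (mul_le_mul_of_nonneg_left h3 (le_max_right C 0))
    linarith

end Pool.Agent.Results.MP_f45ea1_an.SemiNotAlmost
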